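import Mathlib

namespace H13.Berg
open scoped ENNReal Topology

noncomputable def prj (ε t : ℝ) : ℝ := max (-ε) (min ε t)
noncomputable def q (ε t : ℝ) : ℝ := (t - prj ε t)^2

lemma prj_mem {ε : ℝ} (hε : 0 < ε) (t : ℝ) : -ε ≤ prj ε t ∧ prj ε t ≤ ε := by
  unfold prj
  refine ⟨le_max_left _ _, ?_⟩
  exact max_le (by linarith) (min_le_left _ _)

lemma q_nonneg (ε t : ℝ) : 0 ≤ q ε t := sq_nonneg _

lemma q_continuous (ε : ℝ) : Continuous (q ε) := by
  unfold q prj; fun_prop

lemma q_le {ε m s : ℝ} (h1 : -ε ≤ s) (h2 : s ≤ ε) : q ε m ≤ (m - s)^2 := by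
  unfold q prj
  rcases le_total m (-ε) with h | h
  · have : min ε m = m := min_eq_right (by linarith)
    rw [this, max_eq_left h]
    nlinarith
  · rcases le_total m ε with h' | h'
    · rw [min_eq_right h', max_eq_right h]
      nlinarith [sq_nonneg (m - s)]
    · rw [min_eq_left h', max_eq_right (by linarith)]
      nlinarith

lemma q_eq_zero {ε t : ℝ} (h : |t| ≤ ε) : q ε t = 0 := by
  have h1 := abs_le.1 h
  have := q_le (m := t) h1.1 h1.2
  have h2 := q_nonneg ε t
  nlinarith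

lemma q_le_one {ε t : ℝ} (hε : 0 < ε) (h : |t| ≤ 1) : q ε t ≤ 1 := by
  have := q_le (ε := ε) (m := t) (s := 0) (by linarith) (by linarith)
  have h1 := abs_le.1 h
  nlinarith

lemma le_q {ε t : ℝ} (hε : 0 < ε) (h : 2 * ε ≤ |t|) : ε^2 ≤ q ε t := by
  obtain ⟨h1, h2⟩ := prj_mem hε t
  unfold q
  rcases le_abs.1 h with h' | h'
  · nlinarith
  · nlinarith

lemma q_mid {ε a b d : ℝ} (hε : 0 < ε) (hd : 2 * ε < d) (hab : d ≤ |a - b|) :
    q ε ((a + b) / 2) + (d - 2 * ε)^2 / 4 ≤ (q ε a + q ε b) / 2 := by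
  obtain ⟨h1, h2⟩ := prj_mem hε a
  obtain ⟨h3, h4⟩ := prj_mem hε b
  have h5 := q_le (ε := ε) (m := (a + b) / 2) (s := (prj ε a + prj ε b) / 2) (by linarith) (by linarith)
  have h6 : q ε a = (a - prj ε a)^2 := rfl
  have h7 : q ε b = (b - prj ε b)^2 := rfl
  rw [h6, h7]
  have h8 : (d - 2 * ε)^2 ≤ ((a - prj ε a) - (b - prj ε b))^2 := by
    rcases le_abs.1 hab with h | h
    · have : d - 2 * ε ≤ (a - prj ε a) - (b - prj ε b) := by linarith
      nlinarith
    · have : d - 2 * ε ≤ (b - prj ε b) - (a - prj ε a) := by linarith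
      nlinarith
  nlinarith [h5, h8]

variable {G : Type*} [Group G]

noncomputable def Sf (ε : ℝ) (f h : G → ℝ) : ℝ≥0∞ :=
  ⨆ g : G, ∑' x, ENNReal.ofReal (q ε (h x - f (g * x)))

lemma Sf_lsc (ε : ℝ) (f : G → ℝ) : LowerSemicontinuous (Sf ε f) := by
  unfold Sf
  refine lowerSemicontinuous_iSup fun g => lowerSemicontinuous_tsum fun x => ?_
  apply Continuous.lowerSemicontinuous
  refine ENNReal.continuous_ofReal.comp ((q_continuous ε).comp ?_)
  fun_prop

lemma Sf_translate (ε : ℝ) (f h : G → ℝ) (k : G) :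
    Sf ε f (fun x => h (k * x)) = Sf ε f h := by
  unfold Sf
  have key : ∀ g : G, ∑' x, ENNReal.ofReal (q ε (h (k * x) - f (g * x)))
      = ∑' x, ENNReal.ofReal (q ε (h x - f ((g * k⁻¹) * x))) := by
    intro g
    rw [← (Equiv.mulLeft k).tsum_eq (fun x => ENNReal.ofReal (q ε (h x - f ((g * k⁻¹) * x))))]
    refine tsum_congr fun x => ?_
    simp [mul_assoc]
  simp_rw [key]
  exact (Equiv.mulRight k⁻¹).iSup_comp (g := fun g => ∑' x, ENNReal.ofReal (q ε (h x - f (g * x))))

lemma Sf_self_le {ε : ℝ} (hε : 0 < ε) (f : G → ℝ) (hf : ∀ x, f x ∈ Set.Icc (0:ℝ) 1) (N : ℕ)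
    (hN : ∀ g : G, {x : G | ε ≤ |f (g * x) - f x|}.encard ≤ N) : Sf ε f f ≤ N := by
  unfold Sf
  refine iSup_le fun g => ?_
  have hfin : {x : G | ε ≤ |f (g * x) - f x|}.Finite :=
    Set.finite_of_encard_le_coe (hN g)
  rw [tsum_eq_sum (s := hfin.toFinset)]
  · calc ∑ x ∈ hfin.toFinset, ENNReal.ofReal (q ε (f x - f (g * x)))
        ≤ ∑ x ∈ hfin.toFinset, (1:ℝ≥0∞) := by
          refine Finset.sum_le_sum fun x _ => ?_
          rw [← ENNReal.ofReal_one]
          apply ENNReal.ofReal_le_ofReal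
          apply q_le_one hε
          have h1 := hf x
          have h2 := hf (g * x)
          rw [abs_le]
          constructor <;> linarith [h1.1, h1.2, h2.1, h2.2]
      _ = (hfin.toFinset.card : ℝ≥0∞) := by simp
      _ ≤ N := by
          have h3 := hN g
          rw [hfin.encard_eq_coe_toFinset_card] at h3
          exact_mod_cast h3
  · intro x hx
    rw [Set.Finite.mem_toFinset, Set.mem_setOf_eq, not_le] at hx
    rw [q_eq_zero, ENNReal.ofReal_zero]
    rw [abs_sub_comm]; exact hx.le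

theorem conv_main (f : G → ℝ) (hf : ∀ x, f x ∈ Set.Icc (0:ℝ) 1) {ε : ℝ} (hε : 0 < ε) (N : ℕ)
    (hN : ∀ g : G, {x : G | ε ≤ |f (g * x) - f x|}.encard ≤ N) :
    ∃ c : ℝ, {x | 4 * ε ≤ |f x - c|}.Finite := by
  classical
  set K : Set (G → ℝ) := Set.pi Set.univ (fun _ => Set.Icc (0:ℝ) 1) with hK
  have hKc : IsCompact K := isCompact_univ_pi (fun _ => isCompact_Icc)
  have hfK : f ∈ K := fun x _ => hf x
  obtain ⟨h0, h0K, hmin⟩ := LowerSemicontinuousOn.exists_isMinOn ⟨f, hfK⟩ hKc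
    ((Sf_lsc ε f).lowerSemicontinuousOn K)
  have hS0 : Sf ε f h0 ≤ N := (hmin hfK).trans (Sf_self_le hε f hf N hN)
  have hS0' : Sf ε f h0 ≠ ⊤ := (hS0.trans_lt (ENNReal.natCast_lt_top N)).ne
  have hinv : ∀ k x0 : G, |h0 (k * x0) - h0 x0| ≤ 2 * ε := by
    intro k x0
    by_contra hcon
    push Not at hcon
    set d := |h0 (k * x0) - h0 x0| with hd
    set η : ℝ := (d - 2 * ε)^2 / 4 with hη
    have hηpos : 0 < η := by
      have : 0 < d - 2 * ε := by linarith
      positivity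
    set m : G → ℝ := fun x => (h0 x + h0 (k * x)) / 2 with hm
    have hmK : m ∈ K := by
      intro x _
      have h1 := h0K x (Set.mem_univ _)
      have h2 := h0K (k * x) (Set.mem_univ _)
      simp only [Set.mem_Icc] at h1 h2 ⊢
      simp only [hm]
      constructor <;> linarith [h1.1, h1.2, h2.1, h2.2]
    have hle : ∀ g : G, ∑' x, ENNReal.ofReal (q ε (m x - f (g * x))) + ENNReal.ofReal η ≤ Sf ε f h0 := by
      intro g
      have e1 : ∑' x, ENNReal.ofReal (q ε (h0 x - f (g * x))) ≤ Sf ε f h0 :=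
        le_iSup (fun g : G => ∑' x, ENNReal.ofReal (q ε (h0 x - f (g * x)))) g
      have e2 : ∑' x, ENNReal.ofReal (q ε (h0 (k * x) - f (g * x))) ≤ Sf ε f h0 := by
        rw [← Sf_translate ε f h0 k]
        exact le_iSup (fun g : G => ∑' x, ENNReal.ofReal (q ε (h0 (k * x) - f (g * x)))) g
      have e3 : 2 * (∑' x, ENNReal.ofReal (q ε (m x - f (g * x))) + ENNReal.ofReal η)
          ≤ ∑' x, ENNReal.ofReal (q ε (h0 x - f (g * x)))
            + ∑' x, ENNReal.ofReal (q ε (h0 (k * x) - f (g * x))) := by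
        rw [← ENNReal.tsum_add]
        have e4 : ENNReal.ofReal η = ∑' x, (if x = x0 then ENNReal.ofReal η else 0) := by
          rw [tsum_ite_eq]
        rw [e4, ← ENNReal.tsum_add, ← ENNReal.tsum_mul_left]
        refine ENNReal.tsum_le_tsum fun x => ?_
        by_cases hx : x = x0
        · rw [if_pos hx]
          rw [← ENNReal.ofReal_add (q_nonneg _ _) hηpos.le, ← ENNReal.ofReal_add (q_nonneg _ _) (q_nonneg _ _)]
          rw [show (2:ℝ≥0∞) = ENNReal.ofReal 2 by simp, ← ENNReal.ofReal_mul (by norm_num)]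
          apply ENNReal.ofReal_le_ofReal
          have := q_mid (ε := ε) (a := h0 x - f (g * x)) (b := h0 (k * x) - f (g * x)) (d := d) hε hcon
            (by rw [hd, hx, abs_sub_comm]; apply le_of_eq; congr 1; ring)
          have e5 : m x - f (g * x) = ((h0 x - f (g * x)) + (h0 (k * x) - f (g * x))) / 2 := by
            simp only [hm]; ring
          rw [e5]
          linarith
        · rw [if_neg hx, add_zero]
          rw [← ENNReal.ofReal_add (q_nonneg _ _) (q_nonneg _ _)]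
          rw [show (2:ℝ≥0∞) = ENNReal.ofReal 2 by simp, ← ENNReal.ofReal_mul (by norm_num)]
          apply ENNReal.ofReal_le_ofReal
          have e5 : m x - f (g * x) = ((h0 x - f (g * x)) + (h0 (k * x) - f (g * x))) / 2 := by
            simp only [hm]; ring
          rw [e5]
          obtain ⟨h1, h2⟩ := prj_mem hε (h0 x - f (g * x))
          obtain ⟨h3, h4⟩ := prj_mem hε (h0 (k * x) - f (g * x))
          have h5 := q_le (ε := ε) (m := ((h0 x - f (g * x)) + (h0 (k * x) - f (g * x))) / 2)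
            (s := (prj ε (h0 x - f (g * x)) + prj ε (h0 (k * x) - f (g * x))) / 2) (by linarith) (by linarith)
          have h6 : q ε (h0 x - f (g * x)) = ((h0 x - f (g * x)) - prj ε (h0 x - f (g * x)))^2 := rfl
          have h7 : q ε (h0 (k * x) - f (g * x)) = ((h0 (k * x) - f (g * x)) - prj ε (h0 (k * x) - f (g * x)))^2 := rfl
          rw [h6, h7]
          nlinarith [h5, sq_nonneg (((h0 x - f (g * x)) - prj ε (h0 x - f (g * x))) - ((h0 (k * x) - f (g * x)) - prj ε (h0 (k * x) - f (g * x))))]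
      have e6 : 2 * (∑' x, ENNReal.ofReal (q ε (m x - f (g * x))) + ENNReal.ofReal η) ≤ 2 * Sf ε f h0 := by
        calc _ ≤ _ := e3
          _ ≤ Sf ε f h0 + Sf ε f h0 := add_le_add e1 e2
          _ = 2 * Sf ε f h0 := by ring
      exact (ENNReal.mul_le_mul_iff_right (by norm_num) (by norm_num)).1 e6
    have hηne : ENNReal.ofReal η ≠ 0 := by
      simpa using hηpos
    have h9 : Sf ε f m + ENNReal.ofReal η ≤ Sf ε f h0 := by
      unfold Sf at hle ⊢
      rw [ENNReal.iSup_add]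
      exact iSup_le hle
    have h10 : Sf ε f h0 ≤ Sf ε f m := hmin hmK
    have h11 : Sf ε f h0 + ENNReal.ofReal η ≤ Sf ε f h0 + 0 := by
      rw [add_zero]
      exact (add_le_add_left h10 _).trans h9
    have h12 := (ENNReal.add_le_add_iff_left hS0').1 h11
    exact hηne (le_antisymm h12 bot_le)
  refine ⟨h0 1, ?_⟩
  have hsum : ∑' x, ENNReal.ofReal (q ε (h0 x - f (1 * x))) ≠ ⊤ := by
    refine ne_top_of_le_ne_top hS0' ?_
    exact le_iSup (fun g : G => ∑' x, ENNReal.ofReal (q ε (h0 x - f (g * x)))) 1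
  have hfin := ENNReal.finite_const_le_of_tsum_ne_top hsum (ε := ENNReal.ofReal (ε^2))
    (by simp; positivity)
  refine hfin.subset ?_
  intro x hx
  simp only [Set.mem_setOf_eq, one_mul] at hx ⊢
  apply ENNReal.ofReal_le_ofReal
  apply le_q hε
  have h1 := hinv x 1
  rw [mul_one] at h1
  have h2 : f x - h0 1 = -(h0 x - f x) + (h0 x - h0 1) := by ring
  rw [h2] at hx
  have h3 := abs_add_le (-(h0 x - f x)) (h0 x - h0 1)
  rw [abs_neg] at h3
  linarith

end H13.Berg
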