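import Mathlib

namespace H13.Berg
open scoped Pointwise
open Cardinal

/-- uniform Bergman property with exponent `k`. -/
def UB (G : Type*) [Group G] (k : ℕ) : Prop :=
  ∀ U : ℕ → Set G, Monotone U → (∀ n, (U n)⁻¹ = U n) → (⋃ n, U n) = Set.univ →
    ∃ n, (U n) ^ k = Set.univ

section gen
variable {G : Type*} [Group G] (U : ℕ → Set G)

def R (k : ℕ) (T : Set G) : Prop := ∃ n, T ⊆ (U n) ^ k

variable {U}
lemma R.mono_set {k : ℕ} {S T : Set G} (h : R U k T) (hST : S ⊆ T) : R U k S := by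
  obtain ⟨n, hn⟩ := h; exact ⟨n, hST.trans hn⟩

lemma R.mul (hU : Monotone U) {k l : ℕ} {S T : Set G} (hS : R U k S) (hT : R U l T) :
    R U (k + l) (S * T) := by
  obtain ⟨n, hn⟩ := hS
  obtain ⟨m, hm⟩ := hT
  refine ⟨max n m, ?_⟩
  rw [pow_add]
  exact Set.mul_subset_mul (hn.trans (Set.pow_subset_pow_left (hU (le_max_left _ _))))
    (hm.trans (Set.pow_subset_pow_left (hU (le_max_right _ _))))

lemma R.union (hU : Monotone U) {k : ℕ} {S T : Set G} (hS : R U k S) (hT : R U k T) :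
    R U k (S ∪ T) := by
  obtain ⟨n, hn⟩ := hS
  obtain ⟨m, hm⟩ := hT
  refine ⟨max n m, Set.union_subset ?_ ?_⟩
  · exact hn.trans (Set.pow_subset_pow_left (hU (le_max_left _ _)))
  · exact hm.trans (Set.pow_subset_pow_left (hU (le_max_right _ _)))

lemma R.inv (hi : ∀ n, (U n)⁻¹ = U n) {k : ℕ} {S : Set G} (hS : R U k S) : R U k S⁻¹ := by
  obtain ⟨n, hn⟩ := hS
  refine ⟨n, ?_⟩
  have : (U n ^ k) = (U n ^ k)⁻¹ := by rw [← inv_pow, hi]
  rw [this]
  exact Set.inv_subset_inv.2 hn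

lemma R.single (hc : (⋃ n, U n) = Set.univ) (g : G) : R U 1 {g} := by
  have : g ∈ ⋃ n, U n := by rw [hc]; trivial
  obtain ⟨n, hn⟩ := Set.mem_iUnion.1 this
  exact ⟨n, by simpa using hn⟩
end gen

variable {X : Type*}

lemma inv_app {Y : Type*} (g : Equiv.Perm Y) (x : Y) : g⁻¹ (g x) = x := g.symm_apply_apply x
lemma app_inv {Y : Type*} (g : Equiv.Perm Y) (x : Y) : g (g⁻¹ x) = x := g.apply_symm_apply x

def Full (A : Set X) : Prop := #A = #X

lemma Full.equiv {A : Set X} (h : Full A) : Nonempty (A ≃ X) := Cardinal.eq.1 h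

lemma full_range {i : X → X} (hi : Function.Injective i) : Full (Set.range i) :=
  Cardinal.mk_range_eq i hi

lemma Full.mono {A B : Set X} (h : Full A) (hAB : A ⊆ B) : Full B :=
  le_antisymm (Cardinal.mk_set_le _) (h.symm.le.trans (Cardinal.mk_le_mk_of_subset hAB))

lemma Full.image (g : Equiv.Perm X) {A : Set X} (h : Full A) : Full (g '' A) := by
  unfold Full at *
  rw [Cardinal.mk_image_eq g.injective, h]

lemma Full.union [Infinite X] {A B : Set X} (h : Full (A ∪ B)) : Full A ∨ Full B := by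
  by_contra hcon
  push Not at hcon
  have h1 : #A < #X := lt_of_le_of_ne (Cardinal.mk_set_le _) hcon.1
  have h2 : #B < #X := lt_of_le_of_ne (Cardinal.mk_set_le _) hcon.2
  have h3 := Cardinal.add_lt_of_lt (Cardinal.aleph0_le_mk X) h1 h2
  have h4 := Cardinal.mk_union_le A B
  rw [h] at h4
  exact absurd (h4.trans_lt h3) (lt_irrefl _)

lemma sum_equiv (X : Type*) [Infinite X] : Nonempty (X ⊕ X ≃ X) := by
  apply Cardinal.eq.1
  simp only [Cardinal.mk_sum, Cardinal.lift_id]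
  exact Cardinal.add_eq_self (Cardinal.aleph0_le_mk X)

lemma Full.split [Infinite X] {A : Set X} (h : Full A) :
    ∃ B C : Set X, B ⊆ A ∧ C ⊆ A ∧ Disjoint B C ∧ B ∪ C = A ∧ Full B ∧ Full C := by
  obtain ⟨φ⟩ := h.equiv
  obtain ⟨ψ⟩ := sum_equiv X
  let i : X → X := fun x => (φ.symm x : X)
  have hi : Function.Injective i := fun a b hab => φ.symm.injective (Subtype.ext hab)
  have hr : Set.range i = A := by
    ext x
    constructor
    · rintro ⟨y, rfl⟩; exact (φ.symm y).2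
    · intro hx; exact ⟨φ ⟨x, hx⟩, by simp [i]⟩
  refine ⟨Set.range (fun x => i (ψ (Sum.inl x))), Set.range (fun x => i (ψ (Sum.inr x))), ?_, ?_, ?_, ?_, ?_, ?_⟩
  · rw [← hr]; rintro _ ⟨x, rfl⟩; exact ⟨_, rfl⟩
  · rw [← hr]; rintro _ ⟨x, rfl⟩; exact ⟨_, rfl⟩
  · rw [Set.disjoint_left]
    rintro _ ⟨x, rfl⟩ ⟨y, hy⟩
    have := ψ.injective (hi hy)
    cases this
  · rw [← hr]
    ext x
    constructor
    · rintro (⟨y, rfl⟩ | ⟨y, rfl⟩) <;> exact ⟨_, rfl⟩
    · rintro ⟨y, rfl⟩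
      rcases hz : ψ.symm y with z | z
      · left; exact ⟨z, by simp [← hz]⟩
      · right; exact ⟨z, by simp [← hz]⟩
  · exact full_range (fun a b hab => Sum.inl_injective (ψ.injective (hi hab)))
  · exact full_range (fun a b hab => Sum.inr_injective (ψ.injective (hi hab)))

open Classical in
lemma exists_supp {M P Q : Set X} (hP : P ⊆ M) (hQ : Q ⊆ M) (α : P ≃ Q) (β : ↥(M \ P) ≃ ↥(M \ Q)) :
    ∃ h : Equiv.Perm X, (∀ x, x ∉ M → h x = x) ∧ (∀ x, x ∈ P ↔ h x ∈ Q) := by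
  let F : X → X := fun x => if hx : x ∈ P then (α ⟨x, hx⟩ : X) else
    if hM : x ∈ M then (β ⟨x, hM, hx⟩ : X) else x
  let F' : X → X := fun x => if hx : x ∈ Q then (α.symm ⟨x, hx⟩ : X) else
    if hM : x ∈ M then (β.symm ⟨x, hM, hx⟩ : X) else x
  have l1 : Function.LeftInverse F' F := by
    intro x
    by_cases hx : x ∈ P
    · simp only [F, F', hx, dif_pos, Subtype.coe_prop, Subtype.coe_eta, Equiv.symm_apply_apply]
    · by_cases hM : x ∈ M
      · have h1 : (β ⟨x, hM, hx⟩ : X) ∉ Q := (β ⟨x, hM, hx⟩).2.2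
        have h2 : (β ⟨x, hM, hx⟩ : X) ∈ M := (β ⟨x, hM, hx⟩).2.1
        simp only [F, F', hx, hM, h1, h2, dif_pos, dif_neg, not_false_eq_true, Subtype.coe_eta,
          Equiv.symm_apply_apply]
      · have h1 : x ∉ Q := fun h => hM (hQ h)
        simp only [F, F', hx, hM, h1, dif_neg, not_false_eq_true]
  have l2 : Function.RightInverse F' F := by
    intro x
    by_cases hx : x ∈ Q
    · simp only [F, F', hx, dif_pos, Subtype.coe_prop, Subtype.coe_eta, Equiv.apply_symm_apply]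
    · by_cases hM : x ∈ M
      · have h1 : (β.symm ⟨x, hM, hx⟩ : X) ∉ P := (β.symm ⟨x, hM, hx⟩).2.2
        have h2 : (β.symm ⟨x, hM, hx⟩ : X) ∈ M := (β.symm ⟨x, hM, hx⟩).2.1
        simp only [F, F', hx, hM, h1, h2, dif_pos, dif_neg, not_false_eq_true, Subtype.coe_eta,
          Equiv.apply_symm_apply]
      · have h1 : x ∉ P := fun h => hM (hP h)
        simp only [F, F', hx, hM, h1, dif_neg, not_false_eq_true]
  refine ⟨⟨F, F', l1, l2⟩, ?_, ?_⟩
  · intro x hx
    have h1 : x ∉ P := fun h => hx (hP h)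
    simp only [Equiv.coe_fn_mk, F, hx, h1, dif_neg, not_false_eq_true]
  · intro x
    constructor
    · intro hx
      simp only [Equiv.coe_fn_mk, F, hx, dif_pos, Subtype.coe_prop]
    · intro hx
      by_contra hxP
      by_cases hM : x ∈ M
      · simp only [Equiv.coe_fn_mk, F, hxP, hM, dif_pos, dif_neg, not_false_eq_true] at hx
        exact (β ⟨x, hM, hxP⟩).2.2 hx
      · simp only [Equiv.coe_fn_mk, F, hxP, hM, dif_neg, not_false_eq_true] at hx
        exact hM (hQ hx)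

lemma exists_supp' {M P Q : Set X} (hP : P ⊆ M) (hQ : Q ⊆ M) (fP : Full P) (fQ : Full Q)
    (fP' : Full (M \ P)) (fQ' : Full (M \ Q)) :
    ∃ h : Equiv.Perm X, (∀ x, x ∉ M → h x = x) ∧ (∀ x, x ∈ P ↔ h x ∈ Q) := by
  obtain ⟨a⟩ := fP.equiv
  obtain ⟨b⟩ := fQ.equiv
  obtain ⟨a'⟩ := fP'.equiv
  obtain ⟨b'⟩ := fQ'.equiv
  exact exists_supp hP hQ (a.trans b.symm) (a'.trans b'.symm)

def Supp (A : Set X) : Set (Equiv.Perm X) := {g | ∀ x, x ∉ A → g x = x}

/-- the commutator computation -/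
lemma comm_calc {Z V : Type*} (u w t : Equiv.Perm (Z ⊕ (Z ⊕ V))) (a b : Equiv.Perm V)
    (ht1 : ∀ z, t (Sum.inl z) = Sum.inr (Sum.inl z)) (ht2 : ∀ z, t (Sum.inr (Sum.inl z)) = Sum.inl z)
    (ht3 : ∀ v, t (Sum.inr (Sum.inr v)) = Sum.inr (Sum.inr v))
    (hu1 : ∀ z, u (Sum.inr (Sum.inl z)) = Sum.inr (Sum.inl z))
    (hu2 : ∀ v, u (Sum.inr (Sum.inr v)) = Sum.inr (Sum.inr (a v)))
    (hw1 : ∀ z, w (Sum.inr (Sum.inl z)) = Sum.inr (Sum.inl z))
    (hw2 : ∀ v, w (Sum.inr (Sum.inr v)) = Sum.inr (Sum.inr (b v)))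
    (C : Equiv.Perm (Z ⊕ (Z ⊕ V)))
    (hC1 : ∀ z, C (Sum.inl z) = Sum.inl z) (hC2 : ∀ z, C (Sum.inr (Sum.inl z)) = Sum.inr (Sum.inl z))
    (hC3 : ∀ v, C (Sum.inr (Sum.inr v)) = Sum.inr (Sum.inr (a (b (a⁻¹ (b⁻¹ v)))))) :
    C = u * (t * w * t) * u⁻¹ * (t * w * t)⁻¹ := by
  have hul : ∀ z, ∃ z', u (Sum.inl z) = Sum.inl z' := by
    intro z
    rcases h : u (Sum.inl z) with z' | (z' | v)
    · exact ⟨z', rfl⟩
    · rw [← hu1] at h; have := u.injective h; cases this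
    · have : u (Sum.inl z) = u (Sum.inr (Sum.inr (a⁻¹ v))) := by rw [h, hu2]; simp
      have := u.injective this; cases this
  have hwl : ∀ z, ∃ z', w (Sum.inl z) = Sum.inl z' := by
    intro z
    rcases h : w (Sum.inl z) with z' | (z' | v)
    · exact ⟨z', rfl⟩
    · rw [← hw1] at h; have := w.injective h; cases this
    · have : w (Sum.inl z) = w (Sum.inr (Sum.inr (b⁻¹ v))) := by rw [h, hw2]; simp
      have := w.injective this; cases this
  rw [eq_mul_inv_iff_mul_eq, eq_mul_inv_iff_mul_eq]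
  ext x
  simp only [Equiv.Perm.coe_mul, Function.comp_apply]
  rcases x with z | (z | v)
  · obtain ⟨z', hz'⟩ := hul z
    simp [hz', ht1, ht2, hw1, hC1]
  · obtain ⟨z', hz'⟩ := hwl z
    simp [hu1, ht1, ht2, hz', hC2]
  · simp [hu2, hw2, ht3, hC3]

/-- the swap permutation -/
def tswap (Z V : Type*) : Equiv.Perm (Z ⊕ (Z ⊕ V)) where
  toFun
    | Sum.inl z => Sum.inr (Sum.inl z)
    | Sum.inr (Sum.inl z) => Sum.inl z
    | Sum.inr (Sum.inr v) => Sum.inr (Sum.inr v)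
  invFun
    | Sum.inl z => Sum.inr (Sum.inl z)
    | Sum.inr (Sum.inl z) => Sum.inl z
    | Sum.inr (Sum.inr v) => Sum.inr (Sum.inr v)
  left_inv := by rintro (z | z | v) <;> rfl
  right_inv := by rintro (z | z | v) <;> rfl

/-- apply `π` on the nonnegative levels -/
def aperm {Z : Type*} (π : Equiv.Perm Z) : Equiv.Perm (ℤ × Z) where
  toFun p := if 0 ≤ p.1 then (p.1, π p.2) else p
  invFun p := if 0 ≤ p.1 then (p.1, π⁻¹ p.2) else p
  left_inv := by
    rintro ⟨n, z⟩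
    by_cases h : 0 ≤ n <;> simp [h]
  right_inv := by
    rintro ⟨n, z⟩
    by_cases h : 0 ≤ n <;> simp [h]

def bperm (Z : Type*) : Equiv.Perm (ℤ × Z) where
  toFun p := (p.1 + 1, p.2)
  invFun p := (p.1 - 1, p.2)
  left_inv := by rintro ⟨n, z⟩; simp
  right_inv := by rintro ⟨n, z⟩; simp

lemma shift_calc {Z : Type*} (π : Equiv.Perm Z) (n : ℤ) (z : Z) :
    aperm π (bperm Z ((aperm π)⁻¹ ((bperm Z)⁻¹ (n, z)))) = if n = 0 then (0, π z) else (n, z) := by
  have e1 : (bperm Z)⁻¹ (n, z) = (n - 1, z) := rfl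
  have e2 : ∀ p, (aperm π)⁻¹ p = if 0 ≤ p.1 then (p.1, π⁻¹ p.2) else p := fun p => rfl
  have e3 : ∀ p, (aperm π) p = if 0 ≤ p.1 then (p.1, π p.2) else p := fun p => rfl
  have e4 : ∀ p, (bperm Z) p = (p.1 + 1, p.2) := fun p => rfl
  rw [e1, e2]
  rcases lt_trichotomy n 0 with h | h | h
  · have h1 : ¬ (0 ≤ n - 1) := by omega
    have h2 : ¬ (0 ≤ n) := by omega
    have h3 : n ≠ 0 := by omega
    rw [if_neg h1, e4, e3, if_neg h3]
    have h4 : ¬ (0 ≤ (((n - 1, z) : ℤ × Z).1 + 1, ((n - 1, z) : ℤ × Z).2).1) := by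
      simp; omega
    rw [if_neg h4]; simp
  · subst h
    simp [e4, e3]
  · have h1 : (0 ≤ n - 1) := by omega
    have h2 : (0 ≤ n) := by omega
    have h3 : n ≠ 0 := by omega
    rw [if_pos h1, e4, e3, if_neg h3]
    simp [h2]

lemma mkY (X : Type*) [Infinite X] : #(X ⊕ (ℤ × X)) = #X := by
  have h := Cardinal.aleph0_le_mk X
  simp only [Cardinal.mk_sum, Cardinal.mk_prod, Cardinal.lift_id, Cardinal.mk_denumerable,
    Cardinal.lift_aleph0, Cardinal.lift_uzero]
  rw [Cardinal.aleph0_mul_eq h, Cardinal.add_eq_self h]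

lemma mkNY (X : Type*) [Infinite X] : #(ℕ × (X ⊕ (ℤ × X))) = #X := by
  have h := Cardinal.aleph0_le_mk X
  rw [Cardinal.mk_prod, mkY X]
  simp only [Cardinal.mk_denumerable, Cardinal.lift_aleph0, Cardinal.lift_id]
  first
    | exact Cardinal.aleph0_mul_eq h
    | (rw [Cardinal.lift_uzero]; exact Cardinal.aleph0_mul_eq h)

lemma diag [Infinite X] (U : ℕ → Set (Equiv.Perm X)) (hc : (⋃ n, U n) = Set.univ) :
    ∃ n, ∃ E : X ≃ X ⊕ (X ⊕ (ℤ × X)), ∀ π : Equiv.Perm (X ⊕ (ℤ × X)), ∃ u ∈ U n,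
      ∀ y, E (u (E.symm (Sum.inr y))) = Sum.inr (π y) := by
  classical
  obtain ⟨e⟩ : Nonempty (X ≃ ℕ × (X ⊕ (ℤ × X))) := Cardinal.eq.1 (mkNY X).symm
  have key : ∃ n, ∀ π : Equiv.Perm (X ⊕ (ℤ × X)), ∃ u ∈ U n,
      ∀ y, u (e.symm (n, y)) = e.symm (n, π y) := by
    by_contra hcon
    push Not at hcon
    choose π hπ using hcon
    let Q : Equiv.Perm (ℕ × (X ⊕ (ℤ × X))) := Equiv.prodShear (Equiv.refl ℕ) π
    let P : Equiv.Perm X := e.trans (Q.trans e.symm)
    have : P ∈ ⋃ n, U n := by rw [hc]; trivial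
    obtain ⟨m, hm⟩ := Set.mem_iUnion.1 this
    obtain ⟨y, hy⟩ := hπ m P hm
    apply hy
    simp [P, Q, Equiv.prodShear]
  obtain ⟨n, hn⟩ := key
  let p : ℕ × (X ⊕ (ℤ × X)) → Prop := fun x => x.1 = n
  let κ : {x // p x} ≃ (X ⊕ (ℤ × X)) :=
    { toFun := fun x => x.1.2
      invFun := fun y => ⟨(n, y), rfl⟩
      left_inv := by rintro ⟨⟨m, y⟩, h⟩; simp only [p] at h; subst h; rfl
      right_inv := fun y => rfl }
  obtain ⟨θ⟩ : Nonempty ({x // ¬ p x} ≃ X) := by
    apply Cardinal.eq.1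
    apply le_antisymm
    · rw [← mkNY X]
      exact Cardinal.mk_subtype_le _
    · have i : X ⊕ (ℤ × X) ↪ {x // ¬ p x} :=
        ⟨fun y => ⟨(n + 1, y), by simp [p]⟩, fun a b hab => by
          simp only [Subtype.mk.injEq, Prod.mk.injEq, true_and] at hab; exact hab⟩
      have := Cardinal.mk_le_of_injective i.injective
      rwa [mkY X] at this
  let En : ℕ × (X ⊕ (ℤ × X)) ≃ X ⊕ (X ⊕ (ℤ × X)) :=
    (Equiv.sumCompl p).symm.trans ((Equiv.sumComm _ _).trans (Equiv.sumCongr θ κ))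
  have hEn : ∀ y, En.symm (Sum.inr y) = (n, y) := by
    intro y
    simp [En, κ]
  refine ⟨n, e.trans En, fun π => ?_⟩
  obtain ⟨u, hu, huy⟩ := hn π
  refine ⟨u, hu, fun y => ?_⟩
  have h1 : (e.trans En).symm (Sum.inr y) = e.symm (n, y) := by
    simp [Equiv.symm_trans_apply, hEn]
  rw [h1, huy]
  simp only [Equiv.trans_apply, Equiv.apply_symm_apply]
  rw [← hEn, Equiv.apply_symm_apply]

lemma supp_small [Infinite X] {U : ℕ → Set (Equiv.Perm X)} (hU : Monotone U)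
    (hi : ∀ n, (U n)⁻¹ = U n) (hc : (⋃ n, U n) = Set.univ) :
    ∃ Ω : Set X, Full Ω ∧ Full Ωᶜ ∧ R U 8 (Supp Ω) := by
  classical
  obtain ⟨n, E, hE⟩ := diag U hc
  refine ⟨Set.range (fun z : X => E.symm (Sum.inr (Sum.inr ((0 : ℤ), z)))), ?_, ?_, ?_⟩
  · apply full_range
    intro a b hab
    have := E.symm.injective hab
    simpa using this
  · refine Full.mono (full_range (i := fun z : X => E.symm (Sum.inl z)) ?_) ?_
    · intro a b hab
      have := E.symm.injective hab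
      simpa using this
    · rintro _ ⟨z, rfl⟩ ⟨z', hz'⟩
      have := E.symm.injective hz'
      cases this
  · set Φ := E.permCongrHom with hΦ
    have hΦa : ∀ (g : Equiv.Perm X) y, Φ g y = E (g (E.symm y)) := fun g y => rfl
    set t0 : Equiv.Perm X := Φ.symm (tswap X (ℤ × X)) with ht0
    have hR1 : R U 1 (U n) := ⟨n, by simp⟩
    have hRt : R U 1 ({t0} : Set (Equiv.Perm X)) := R.single hc t0
    have hRv : R U 3 (({t0} : Set (Equiv.Perm X)) * U n * {t0}) := (hRt.mul hU hR1).mul hU hRt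
    have hR8 := ((hR1.mul hU hRv).mul hU (hR1.inv hi)).mul hU (hRv.inv hi)
    refine R.mono_set hR8 ?_
    intro g hg
    set C := Φ g with hC
    have hfix : ∀ y, (∀ z : X, y ≠ Sum.inr (Sum.inr ((0 : ℤ), z))) → C y = y := by
      intro y hy
      rw [hC, hΦa, hg, Equiv.apply_symm_apply]
      rintro ⟨z, hz⟩
      exact hy z (E.symm.injective hz.symm)
    have hfix' : ∀ y, (∀ z : X, y ≠ Sum.inr (Sum.inr ((0 : ℤ), z))) → C⁻¹ y = y := by
      intro y hy
      rw [Equiv.Perm.inv_eq_iff_eq, hfix y hy]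
    have hin : ∀ z : X, ∃ z' : X, C (Sum.inr (Sum.inr ((0 : ℤ), z))) = Sum.inr (Sum.inr (0, z')) := by
      intro z
      by_contra hcon
      push Not at hcon
      have h1 := hfix _ hcon
      have h2 := C.injective h1
      exact hcon z h2
    have hin' : ∀ z : X, ∃ z' : X, C⁻¹ (Sum.inr (Sum.inr ((0 : ℤ), z))) = Sum.inr (Sum.inr (0, z')) := by
      intro z
      by_contra hcon
      push Not at hcon
      have h1 := hfix' _ hcon
      have h2 := (C⁻¹).injective h1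
      exact hcon z h2
    choose f hf using hin
    choose f' hf' using hin'
    let π : Equiv.Perm X :=
      { toFun := f
        invFun := f'
        left_inv := by
          intro z
          have h1 : C⁻¹ (C (Sum.inr (Sum.inr ((0 : ℤ), z)))) = Sum.inr (Sum.inr (0, f' (f z))) := by
            rw [hf, hf']
          rw [inv_app] at h1
          simpa using h1.symm
        right_inv := by
          intro z
          have h1 : C (C⁻¹ (Sum.inr (Sum.inr ((0 : ℤ), z)))) = Sum.inr (Sum.inr (0, f (f' z))) := by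
            rw [hf', hf]
          rw [app_inv] at h1
          simpa using h1.symm }
    obtain ⟨u, huU, hu⟩ := hE (Equiv.sumCongr (Equiv.refl X) (aperm π))
    obtain ⟨w, hwU, hw⟩ := hE (Equiv.sumCongr (Equiv.refl X) (bperm X))
    have hCC := comm_calc (Φ u) (Φ w) (tswap X (ℤ × X)) (aperm π) (bperm X)
      (fun z => rfl) (fun z => rfl) (fun v => rfl)
      (fun z => by rw [hΦa, hu]; rfl) (fun v => by rw [hΦa, hu]; rfl)
      (fun z => by rw [hΦa, hw]; rfl) (fun v => by rw [hΦa, hw]; rfl) C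
      (fun z => hfix _ (fun z' h => by cases h))
      (fun z => hfix _ (fun z' h => by cases h))
      (fun v => by
        obtain ⟨m, z⟩ := v
        rw [shift_calc]
        by_cases hm : m = 0
        · subst hm; rw [if_pos rfl, hf]; rfl
        · rw [if_neg hm]
          apply hfix
          intro z' h
          simp only [Sum.inr.injEq, Prod.mk.injEq] at h
          exact hm h.1)
    have hg' : g = u * (t0 * w * t0) * u⁻¹ * (t0 * w * t0)⁻¹ := by
      apply Φ.injective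
      rw [← hC, hCC]
      simp only [map_mul, map_inv, ht0, MulEquiv.apply_symm_apply]
    rw [hg']
    have hv : t0 * w * t0 ∈ ({t0} : Set (Equiv.Perm X)) * U n * {t0} :=
      Set.mul_mem_mul (Set.mul_mem_mul rfl hwU) rfl
    exact Set.mul_mem_mul (Set.mul_mem_mul (Set.mul_mem_mul huU hv) (Set.inv_mem_inv.2 huU))
      (Set.inv_mem_inv.2 hv)

lemma supp_all [Infinite X] {U : ℕ → Set (Equiv.Perm X)} (hU : Monotone U)
    (hi : ∀ n, (U n)⁻¹ = U n) (hc : (⋃ n, U n) = Set.univ) {A : Set X} (hA : Full A)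
    (hA' : Full Aᶜ) : R U 10 (Supp A) := by
  obtain ⟨Ω, h1, h2, h3⟩ := supp_small hU hi hc
  obtain ⟨s, -, hs⟩ := exists_supp' (M := Set.univ) (Set.subset_univ A) (Set.subset_univ Ω) hA h1
    (by rwa [← Set.compl_eq_univ_diff]) (by rwa [← Set.compl_eq_univ_diff])
  have hR := ((R.single hc s⁻¹).mul hU h3).mul hU (R.single hc s)
  refine R.mono_set hR ?_
  intro g hg
  have : g = s⁻¹ * (s * g * s⁻¹) * s := by group
  rw [this]
  refine Set.mul_mem_mul (Set.mul_mem_mul rfl ?_) rfl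
  intro x hx
  have hx' : s⁻¹ x ∉ A := by
    intro h
    apply hx
    have := (hs _).1 h
    rwa [app_inv] at this
  simp only [Equiv.Perm.coe_mul, Function.comp_apply]
  rw [hg _ hx', app_inv]

lemma supp_inv {A : Set X} {g : Equiv.Perm X} (hg : g ∈ Supp A) : g⁻¹ ∈ Supp A := by
  intro x hx
  rw [Equiv.Perm.inv_eq_iff_eq, hg x hx]

lemma preserve_split {A : Set X} {g : Equiv.Perm X} (hg : ∀ x, x ∈ A ↔ g x ∈ A) :
    g ∈ Supp A * Supp Aᶜ := by
  classical
  let k : Equiv.Perm X := Equiv.Perm.ofSubtype (p := fun x => x ∈ A)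
    (g.subtypePerm (fun x => (hg x).symm))
  have hk1 : ∀ x, x ∈ A → k x = g x := by
    intro x hx
    simp [k, Equiv.Perm.ofSubtype_apply_of_mem _ hx]
  have hk2 : ∀ x, x ∉ A → k x = x := by
    intro x hx
    exact Equiv.Perm.ofSubtype_apply_of_not_mem _ hx
  refine ⟨k, hk2, k⁻¹ * g, ?_, by group⟩
  intro x hx
  have hx' : x ∈ A := by simpa using hx
  simp only [Equiv.Perm.coe_mul, Function.comp_apply]
  rw [Equiv.Perm.inv_eq_iff_eq, hk1 x hx']

lemma case_j [Infinite X] {M1 M1' M M' : Set X} (g s : Equiv.Perm X)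
    (h1' : M1' ⊆ M1) (fM1' : Full M1') (fM1d : Full (M1 \ M1'))
    (h' : M' ⊆ M) (fM' : Full M') (fMd : Full (M \ M'))
    (hs : ∀ x, x ∈ M1' ↔ s x ∈ M') (hfull : Full (M1 ∩ g ⁻¹' M)) :
    g ∈ Supp M * {s} * (Supp M1' * Supp M1'ᶜ) * Supp M1 := by
  obtain ⟨P, P', hP, hP', hdis, hun, fP, fP'⟩ := hfull.split
  obtain ⟨h1, h1s, h1m⟩ := exists_supp' h1' (hP.trans Set.inter_subset_left) fM1' fP fM1d
    (fP'.mono (fun x hx => ⟨(hP' hx).1, fun h => Set.disjoint_left.1 hdis h hx⟩))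
  obtain ⟨h2, h2s, h2m⟩ := exists_supp' (M := M) (P := g '' P) (Q := M')
    (by rintro _ ⟨x, hx, rfl⟩; exact (hP hx).2) h' (fP.image g) fM'
    ((fP'.image g).mono (by
      rintro _ ⟨x, hx, rfl⟩
      refine ⟨(hP' hx).2, ?_⟩
      rintro ⟨y, hy, hyx⟩
      rw [g.injective hyx] at hy
      exact Set.disjoint_left.1 hdis hy hx)) fMd
  have hk : ∀ x, x ∈ M1' ↔ (s⁻¹ * h2 * g * h1) x ∈ M1' := by
    intro x
    simp only [Equiv.Perm.coe_mul, Function.comp_apply]
    rw [h1m x, hs (s⁻¹ _), app_inv, ← h2m]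
    constructor
    · intro h; exact ⟨_, h, rfl⟩
    · rintro ⟨y, hy, hyx⟩
      rwa [g.injective hyx] at hy
  have hsplit := preserve_split hk
  have e : g = h2⁻¹ * s * (s⁻¹ * h2 * g * h1) * h1⁻¹ := by group
  rw [e]
  refine Set.mul_mem_mul (Set.mul_mem_mul (Set.mul_mem_mul (supp_inv h2s) rfl) hsplit) (supp_inv h1s)

theorem UB_perm (X : Type*) [Infinite X] : UB (Equiv.Perm X) 41 := by
  intro U hU hi hc
  have funiv : Full (Set.univ : Set X) := Cardinal.mk_univ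
  obtain ⟨M1, M2, -, -, hdis, hun, f1, f2⟩ := funiv.split
  obtain ⟨A, A', hA, hA', hAd, hAu, fA, fA'⟩ := f1.split
  obtain ⟨B, B', hB, hB', hBd, hBu, fB, fB'⟩ := f2.split
  have fM1A : Full (M1 \ A) := fA'.mono (fun x hx => ⟨hA' hx, fun h => Set.disjoint_left.1 hAd h hx⟩)
  have fM2B : Full (M2 \ B) := fB'.mono (fun x hx => ⟨hB' hx, fun h => Set.disjoint_left.1 hBd h hx⟩)
  have f1c : Full M1ᶜ := f2.mono (fun x hx h => Set.disjoint_left.1 hdis h hx)
  have f2c : Full M2ᶜ := f1.mono (fun x hx h => Set.disjoint_left.1 hdis hx h)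
  have fAc : Full Aᶜ := f1c.mono (Set.compl_subset_compl.2 hA)
  have fBc : Full Bᶜ := f2c.mono (Set.compl_subset_compl.2 hB)
  obtain ⟨s, -, hs⟩ := exists_supp' (M := Set.univ) (Set.subset_univ A) (Set.subset_univ B) fA fB
    (by rwa [← Set.compl_eq_univ_diff]) (by rwa [← Set.compl_eq_univ_diff])
  have RA := supp_all hU hi hc fA fAc
  have RAc := supp_all hU hi hc fAc (by rwa [compl_compl])
  have R1 := supp_all hU hi hc f1 f1c
  have R2 := supp_all hU hi hc f2 f2c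
  have hT1 := ((R1.mul hU (R.single hc 1)).mul hU (RA.mul hU RAc)).mul hU R1
  have hT2 := ((R2.mul hU (R.single hc s)).mul hU (RA.mul hU RAc)).mul hU R1
  obtain ⟨n, hn⟩ := hT1.union hU hT2
  refine ⟨n, Set.eq_univ_of_univ_subset (fun g _ => hn ?_)⟩
  have h3 : Full ((M1 ∩ g ⁻¹' M1) ∪ (M1 ∩ g ⁻¹' M2)) := by
    rw [← Set.inter_union_distrib_left, ← Set.preimage_union, hun, Set.preimage_univ, Set.inter_univ]
    exact f1
  rcases h3.union with h | h
  · left
    exact case_j g 1 hA fA fM1A hA fA fM1A (fun x => by simp) h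
  · right
    exact case_j g s hA fA fM1A hB fB fM2B hs h

end H13.Berg
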