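import Mathlib
import Pool.Agent.H13.Berg.Conv
import Pool.Agent.H13.Berg.Sym

namespace H13.Berg
open scoped Pointwise Topology
open Filter

variable {G : Type*} [Group G]

def Bd (f : G → ℝ) (a : ℝ) (N : ℕ) (g : G) : Prop :=
  {x : G | a ≤ |f (g * x) - f x|}.encard ≤ N

lemma Bd.mul {f : G → ℝ} {a b : ℝ} {N M : ℕ} {g h : G} (hg : Bd f a N g) (hh : Bd f b M h) :
    Bd f (a + b) (N + M) (g * h) := by
  unfold Bd at *
  have hsub : {x : G | a + b ≤ |f (g * h * x) - f x|} ⊆
      (fun y => h⁻¹ * y) '' {x : G | a ≤ |f (g * x) - f x|} ∪ {x : G | b ≤ |f (h * x) - f x|} := by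
    intro x hx
    by_contra hcon
    rw [Set.mem_union, not_or] at hcon
    obtain ⟨h1, h2⟩ := hcon
    have h1' : ¬ (a ≤ |f (g * (h * x)) - f (h * x)|) := fun h' => h1 ⟨h * x, h', by simp⟩
    simp only [Set.mem_setOf_eq, not_le] at hx h2 h1'
    rw [mul_assoc] at hx
    have h3 := abs_add_le (f (g * (h * x)) - f (h * x)) (f (h * x) - f x)
    rw [sub_add_sub_cancel] at h3
    linarith
  calc _ ≤ _ := Set.encard_le_encard hsub
    _ ≤ _ := Set.encard_union_le _ _
    _ ≤ (N : ℕ∞) + M := by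
        refine add_le_add ?_ hh
        rw [(mul_right_injective h⁻¹).encard_image]
        exact hg
    _ = ((N + M : ℕ) : ℕ∞) := by push_cast; rfl

lemma Bd.inv {f : G → ℝ} {a : ℝ} {N : ℕ} {g : G} (hg : Bd f a N g) : Bd f a N g⁻¹ := by
  unfold Bd at *
  have : {x : G | a ≤ |f (g⁻¹ * x) - f x|} = (fun y => g * y) '' {x : G | a ≤ |f (g * x) - f x|} := by
    ext x
    simp only [Set.mem_setOf_eq, Set.mem_image]
    constructor
    · intro h
      refine ⟨g⁻¹ * x, ?_, by simp⟩
      rw [mul_inv_cancel_left, abs_sub_comm]; exact h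
    · rintro ⟨y, hy, rfl⟩
      rw [inv_mul_cancel_left, abs_sub_comm]; exact hy
  rw [this, (mul_right_injective g).encard_image]
  exact hg

lemma Bd.mono {f : G → ℝ} {a : ℝ} {N M : ℕ} {g : G} (hg : Bd f a N g) (h : N ≤ M) : Bd f a M g :=
  le_trans hg (by exact_mod_cast h)

lemma Bd.pow {f : G → ℝ} {a : ℝ} {N : ℕ} (k : ℕ) : ∀ g ∈ ({g : G | Bd f a N g}) ^ (k + 1),
    Bd f ((k + 1) * a) ((k + 1) * N) g := by
  induction k with
  | zero => intro g hg; simpa using hg
  | succ k ih =>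
    intro g hg
    rw [pow_succ] at hg
    obtain ⟨u, hu, v, hv, rfl⟩ := hg
    have := (ih u hu).mul hv
    have e1 : ((k + 1 : ℕ) + 1 : ℝ) * a = ((k : ℝ) + 1) * a + a := by push_cast; ring
    have e2 : (k + 1 + 1) * N = (k + 1) * N + N := by ring
    rw [e1, e2]
    exact this

lemma UB.succ {k : ℕ} (h : UB G k) : UB G (k + 1) := by
  intro U hU hi hc
  obtain ⟨n, hn⟩ := h U hU hi hc
  have : (1 : G) ∈ ⋃ n, U n := by rw [hc]; trivial
  obtain ⟨m, hm⟩ := Set.mem_iUnion.1 this
  refine ⟨max n m, Set.eq_univ_of_univ_subset ?_⟩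
  have h1 : (1 : G) ∈ U (max n m) := hU (le_max_right _ _) hm
  calc Set.univ = (U n) ^ k := hn.symm
    _ ⊆ (U (max n m)) ^ k := Set.pow_subset_pow_left (hU (le_max_left _ _))
    _ ⊆ (U (max n m)) ^ (k + 1) := Set.pow_subset_pow_right h1 (Nat.le_succ k)

lemma unif_of_UB {k : ℕ} (h : UB G k) (f : G → ℝ)
    (hf : ∀ g : G, ∀ δ > 0, {x : G | δ ≤ |f (g * x) - f x|}.Finite) {δ : ℝ} (hδ : 0 < δ) :
    ∃ N : ℕ, ∀ g : G, {x : G | δ ≤ |f (g * x) - f x|}.encard ≤ N := by
  set a : ℝ := δ / (k + 1) with ha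
  have hapos : 0 < a := by positivity
  obtain ⟨n, hn⟩ := h.succ (fun n => {g : G | Bd f a n g})
    (fun n m hnm g hg => Bd.mono hg hnm)
    (fun n => by
      ext g
      simp only [Set.mem_inv, Set.mem_setOf_eq]
      exact ⟨fun hg => by simpa using hg.inv, fun hg => hg.inv⟩)
    (by
      refine Set.eq_univ_of_univ_subset fun g _ => ?_
      obtain ⟨n, hn⟩ := (hf g a hapos).exists_encard_eq_coe
      exact Set.mem_iUnion.2 ⟨n, hn.le⟩)
  refine ⟨(k + 1) * n, fun g => ?_⟩
  have hg : g ∈ ({g : G | Bd f a n g}) ^ (k + 1) := by rw [hn]; trivial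
  have := Bd.pow k g hg
  have e : ((k : ℝ) + 1) * a = δ := by rw [ha]; field_simp
  rw [e] at this
  exact this

/-- bounded functions: uniform smallness gives a limit at infinity -/
lemma tendsto_of_unif [Infinite G] (f : G → ℝ) (hf : ∀ x, f x ∈ Set.Icc (0:ℝ) 1)
    (h : ∀ δ > 0, ∃ N : ℕ, ∀ g : G, {x : G | δ ≤ |f (g * x) - f x|}.encard ≤ N) :
    ∃ c, Tendsto f cofinite (𝓝 c) := by
  have hcau : Cauchy (Filter.map f cofinite) := by
    rw [Metric.cauchy_iff]
    refine ⟨inferInstance, fun ε hε => ?_⟩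
    obtain ⟨N, hN⟩ := h (ε / 8) (by positivity)
    obtain ⟨c, hc⟩ := conv_main f hf (by positivity : 0 < ε / 8) N hN
    refine ⟨{y | |y - c| < ε / 2}, ?_, ?_⟩
    · rw [Filter.mem_map, Filter.mem_cofinite]
      refine hc.subset ?_
      intro x hx
      simp only [Set.mem_compl_iff, Set.mem_preimage, Set.mem_setOf_eq, not_lt] at hx ⊢
      linarith
    · intro x hx y hy
      simp only [Set.mem_setOf_eq] at hx hy
      rw [Real.dist_eq]
      have := abs_sub_le x c y
      rw [abs_sub_comm c y] at this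
      linarith
  obtain ⟨c, hc⟩ := CompleteSpace.complete hcau
  exact ⟨c, hc⟩

lemma finite_pow {s : Set G} (hs : s.Finite) (k : ℕ) : (s ^ k).Finite := by
  induction k with
  | zero => rw [pow_zero]; exact Set.finite_one
  | succ k ih => rw [pow_succ]; exact ih.mul hs

lemma arctan_lip (a b : ℝ) : |Real.arctan a - Real.arctan b| ≤ |a - b| := by
  have := Convex.norm_image_sub_le_of_norm_deriv_le (f := Real.arctan) (s := Set.univ) (C := 1)
    (x := b) (y := a) (fun x _ => Real.differentiableAt_arctan x)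
    (fun x _ => by
      rw [Real.deriv_arctan, Real.norm_eq_abs, abs_of_nonneg (by positivity)]
      rw [div_le_one (by positivity)]; nlinarith [sq_nonneg x])
    convex_univ (Set.mem_univ _) (Set.mem_univ _)
  simpa using this

theorem tendsto_of_unif' [Uncountable G] (f : G → ℝ)
    (hf : ∀ δ > 0, ∃ N : ℕ, ∀ g : G, {x : G | δ ≤ |f (g * x) - f x|}.encard ≤ N) :
    ∃ c, Tendsto f cofinite (𝓝 c) := by
  have hpi := Real.pi_pos
  set φ : G → ℝ := fun x => 1 / 2 + Real.arctan (f x) / Real.pi with hφ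
  have hφI : ∀ x, 0 < φ x ∧ φ x < 1 := by
    intro x
    have h1 := Real.neg_pi_div_two_lt_arctan (f x)
    have h2 := Real.arctan_lt_pi_div_two (f x)
    constructor
    · have : -(1/2) < Real.arctan (f x) / Real.pi := by
        rw [lt_div_iff₀ hpi]; linarith
      simp only [hφ]; linarith
    · have : Real.arctan (f x) / Real.pi < 1/2 := by
        rw [div_lt_iff₀ hpi]; linarith
      simp only [hφ]; linarith
  have hφso : ∀ δ > 0, ∃ N : ℕ, ∀ g : G, {x : G | δ ≤ |φ (g * x) - φ x|}.encard ≤ N := by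
    intro δ hδ
    obtain ⟨N, hN⟩ := hf δ hδ
    refine ⟨N, fun g => le_trans (Set.encard_le_encard ?_) (hN g)⟩
    intro x hx
    simp only [Set.mem_setOf_eq] at hx ⊢
    have e1 : φ (g * x) - φ x = (Real.arctan (f (g * x)) - Real.arctan (f x)) / Real.pi := by
      simp only [hφ]; ring
    rw [e1, abs_div, abs_of_pos hpi, le_div_iff₀ hpi] at hx
    have h1 := arctan_lip (f (g * x)) (f x)
    have h2 : (1:ℝ) ≤ Real.pi := by linarith [Real.pi_gt_three]
    nlinarith
  obtain ⟨c, hc⟩ := tendsto_of_unif φ (fun x => ⟨(hφI x).1.le, (hφI x).2.le⟩) hφso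
  have hc0 : 0 ≤ c := ge_of_tendsto' hc (fun x => (hφI x).1.le)
  have hc1 : c ≤ 1 := le_of_tendsto' hc (fun x => (hφI x).2.le)
  by_cases hint : 0 < c ∧ c < 1
  · refine ⟨Real.tan (Real.pi * (c - 1 / 2)), ?_⟩
    have h1 : Tendsto (fun x => Real.pi * (φ x - 1 / 2)) cofinite (𝓝 (Real.pi * (c - 1 / 2))) :=
      (hc.sub_const _).const_mul _
    have h2 : ContinuousAt Real.tan (Real.pi * (c - 1 / 2)) := by
      rw [Real.continuousAt_tan]
      apply ne_of_gt
      apply Real.cos_pos_of_mem_Ioo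
      constructor <;> nlinarith [hint.1, hint.2]
    have h3 := h2.tendsto.comp h1
    refine h3.congr (fun x => ?_)
    have : Real.pi * (φ x - 1 / 2) = Real.arctan (f x) := by
      simp only [hφ]; field_simp; ring
    simp only [Function.comp_apply, this, Real.tan_arctan]
  · exfalso
    have hfinM : ∀ M : ℕ, {x : G | |f x| ≤ M}.Finite := by
      intro M
      set t : ℝ := Real.arctan M / Real.pi with ht
      have ht2 : t < 1 / 2 := by
        rw [ht, div_lt_iff₀ hpi]; linarith [Real.arctan_lt_pi_div_two (M:ℝ)]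
      have hb : ∀ x, |f x| ≤ M → |φ x - 1 / 2| ≤ t := by
        intro x hx
        have h1 := abs_le.1 hx
        have h2 := Real.arctan_strictMono.monotone h1.2
        have h3 := Real.arctan_strictMono.monotone h1.1
        rw [Real.arctan_neg] at h3
        have e1 : φ x - 1 / 2 = Real.arctan (f x) / Real.pi := by simp only [hφ]; ring
        rw [e1, ht, abs_div, abs_of_pos hpi]
        apply div_le_div_of_nonneg_right _ hpi.le
        exact abs_le.2 ⟨h3, h2⟩
      have hcc : |c - 1 / 2| = 1 / 2 := by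
        rcases eq_or_lt_of_le hc0 with h0 | h0
        · rw [← h0]; norm_num
        · rcases eq_or_lt_of_le hc1 with h1 | h1
          · rw [h1]; norm_num
          · exact absurd ⟨h0, h1⟩ hint
      have h4 : Tendsto (fun x => |φ x - 1 / 2|) cofinite (𝓝 (1 / 2)) := by
        have := (hc.sub_const (1/2)).abs
        rwa [hcc] at this
      have h5 := h4.eventually (lt_mem_nhds ht2)
      rw [Filter.eventually_cofinite] at h5
      refine h5.subset ?_
      intro x hx
      simp only [Set.mem_setOf_eq, not_lt]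
      exact hb x hx
    have hcount : (Set.univ : Set G).Countable := by
      have : (⋃ M : ℕ, {x : G | |f x| ≤ M}) = Set.univ := by
        refine Set.eq_univ_of_univ_subset fun x _ => ?_
        obtain ⟨n, hn⟩ := exists_nat_ge (|f x|)
        exact Set.mem_iUnion.2 ⟨n, hn⟩
      rw [← this]
      exact Set.countable_iUnion fun M => (hfinM M).countable
    exact Set.not_countable_univ hcount

lemma nat_chain [Countable G] : ∃ e : G → ℕ, (∀ n, {x : G | e x ≤ n ∧ e x⁻¹ ≤ n}.Finite) := by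
  obtain ⟨e, he⟩ := Countable.exists_injective_nat G
  refine ⟨e, fun n => ?_⟩
  have : ({x : G | e x ≤ n}).Finite := by
    have h1 : {x : G | e x ≤ n} = e ⁻¹' (Set.Iic n) := rfl
    rw [h1]
    exact (Set.finite_Iic n).preimage he.injOn
  exact this.subset (fun x hx => hx.1)

lemma image_pow' {H : Type*} [Group H] (e : G ≃* H) (S : Set G) (k : ℕ) :
    e '' (S ^ k) = (e '' S) ^ k := by
  induction k with
  | zero => rw [pow_zero, pow_zero, Set.image_one, map_one]; rfl
  | succ k ih => rw [pow_succ, pow_succ, Set.image_mul, ih]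

theorem UB.congr {H : Type*} [Group H] (e : G ≃* H) {k : ℕ} (h : UB G k) : UB H k := by
  intro U hU hi hc
  obtain ⟨n, hn⟩ := h (fun n => e ⁻¹' (U n)) (fun n m hnm x hx => hU hnm hx)
    (fun n => by
      ext x
      simp only [Set.mem_inv, Set.mem_preimage, map_inv]
      rw [← Set.mem_inv, hi])
    (by rw [← Set.preimage_iUnion, hc, Set.preimage_univ])
  refine ⟨n, ?_⟩
  have h1 : e '' (e ⁻¹' (U n)) = U n := Set.image_preimage_eq _ e.surjective
  rw [← h1, ← image_pow', hn, Set.image_univ, Set.range_eq_univ]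
  exact e.surjective

theorem uncountable_of_UB [Infinite G] {k : ℕ} (h : UB G k) : Uncountable G := by
  rw [← not_countable_iff]
  intro hcount
  obtain ⟨e, he⟩ := nat_chain (G := G)
  obtain ⟨n, hn⟩ := h (fun n => {x : G | e x ≤ n ∧ e x⁻¹ ≤ n})
    (fun n m hnm x hx => ⟨hx.1.trans hnm, hx.2.trans hnm⟩)
    (fun n => by
      ext x
      simp only [Set.mem_inv, Set.mem_setOf_eq, inv_inv]
      exact and_comm)
    (by
      refine Set.eq_univ_of_univ_subset fun x _ => ?_
      exact Set.mem_iUnion.2 ⟨max (e x) (e x⁻¹), le_max_left _ _, le_max_right _ _⟩)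
  have := finite_pow (he n) k
  rw [hn] at this
  exact Set.infinite_univ this

theorem tendsto_of_UB [Infinite G] {k : ℕ} (h : UB G k) (f : G → ℝ)
    (hf : ∀ g : G, ∀ δ > 0, {x : G | δ ≤ |f (g * x) - f x|}.Finite) :
    ∃ c, Tendsto f cofinite (𝓝 c) := by
  haveI := uncountable_of_UB h
  exact tendsto_of_unif' f (fun δ hδ => unif_of_UB h f hf hδ)

/-- Bergman groups, as in the problem. -/
def Bergman (G : Type*) [Group G] : Prop :=
  ¬ ∃ Y : ℕ → Set G, StrictMono Y ∧ (⋃ n, Y n) = Set.univ ∧ (∀ n, Y n = (Y n)⁻¹) ∧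
    ∀ n, Y n * Y n ⊆ Y (n + 1)

lemma Bergman.exists_eq (hB : Bergman G) (Y : ℕ → Set G) (hm : Monotone Y)
    (hc : (⋃ n, Y n) = Set.univ) (hi : ∀ n, Y n = (Y n)⁻¹) (hs : ∀ n, Y n * Y n ⊆ Y (n + 1)) :
    ∃ n, Y n = Set.univ := by
  by_contra hcon
  push Not at hcon
  have hstep : ∀ n, ∃ m, n < m ∧ Y n < Y m := by
    intro n
    obtain ⟨x, hx⟩ := (Set.ne_univ_iff_exists_notMem _).1 (hcon n)
    have : x ∈ ⋃ n, Y n := by rw [hc]; trivial
    obtain ⟨m, hm'⟩ := Set.mem_iUnion.1 this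
    refine ⟨max (n + 1) m, lt_of_lt_of_le (Nat.lt_succ_self n) (le_max_left _ _), ?_⟩
    refine lt_of_le_of_ne (hm (le_trans (Nat.le_succ n) (le_max_left _ _))) ?_
    intro heq
    apply hx
    rw [heq]
    exact hm (le_max_right _ _) hm'
  choose s hs1 hs2 using hstep
  let r : ℕ → ℕ := fun k => Nat.rec 0 (fun _ n => s n) k
  have hr0 : ∀ k, r (k + 1) = s (r k) := fun k => rfl
  have hrm : StrictMono r := strictMono_nat_of_lt_succ (fun k => by rw [hr0]; exact hs1 _)
  apply hB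
  refine ⟨fun k => Y (r k), strictMono_nat_of_lt_succ (fun k => by rw [hr0]; exact hs2 _), ?_,
    fun k => hi _, fun k => ?_⟩
  · refine Set.eq_univ_of_univ_subset fun x _ => ?_
    have : x ∈ ⋃ n, Y n := by rw [hc]; trivial
    obtain ⟨m, hm'⟩ := Set.mem_iUnion.1 this
    exact Set.mem_iUnion.2 ⟨m, hm (hrm.id_le m) hm'⟩
  · refine (hs _).trans (hm ?_)
    rw [hr0]
    exact hs1 _

theorem Bergman_of_UB {k : ℕ} (h : UB G k) : Bergman G := by
  rintro ⟨Y, hY, hc, hi, hs⟩
  obtain ⟨n, hn⟩ := h Y hY.monotone (fun n => (hi n).symm) hc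
  obtain ⟨m0, hm0⟩ := Set.mem_iUnion.1 (show (1:G) ∈ ⋃ n, Y n by rw [hc]; trivial)
  have key : ∀ j, (Y n) ^ j ⊆ Y (max n m0 + j) := by
    intro j
    induction j with
    | zero =>
      rw [pow_zero]
      rintro _ rfl
      exact hY.monotone (le_trans (le_max_right n m0) (Nat.le_add_right _ _)) hm0
    | succ j ih =>
      rw [pow_succ]
      refine (Set.mul_subset_mul ih ?_).trans (hs _)
      exact hY.monotone (le_trans (le_max_left _ _) (Nat.le_add_right _ _))
  have h1 : Y (max n m0 + k) = Set.univ := Set.eq_univ_of_univ_subset (hn ▸ key k)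
  have h2 := hY (Nat.lt_succ_self (max n m0 + k))
  rw [h1] at h2
  exact absurd h2 (not_lt_of_ge (Set.subset_univ _))

theorem uncountable_of_Bergman [Infinite G] (h : Bergman G) : Uncountable G := by
  classical
  rw [← not_countable_iff]
  intro hcount
  obtain ⟨e, he⟩ := nat_chain (G := G)
  let F : ℕ → Set G := fun n => {x : G | e x ≤ n ∧ e x⁻¹ ≤ n}
  have hFm : Monotone F := fun n m hnm x hx => ⟨hx.1.trans hnm, hx.2.trans hnm⟩
  have hFi : ∀ n, (F n)⁻¹ = F n := fun n => by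
    ext x
    simp only [F, Set.mem_inv, Set.mem_setOf_eq, inv_inv]
    exact and_comm
  let Y : ℕ → Set G := fun n => Nat.rec (F 0 ∪ {1}) (fun j S => S * S ∪ F (j + 1)) n
  have hY0 : Y 0 = F 0 ∪ {1} := rfl
  have hYs : ∀ n, Y (n + 1) = Y n * Y n ∪ F (n + 1) := fun n => rfl
  have h1 : ∀ n, (1 : G) ∈ Y n := by
    intro n
    induction n with
    | zero => rw [hY0]; right; rfl
    | succ n ih => rw [hYs]; left; exact ⟨1, ih, 1, ih, by simp⟩
  have hfin : ∀ n, (Y n).Finite := by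
    intro n
    induction n with
    | zero => rw [hY0]; exact (he 0).union (Set.finite_singleton _)
    | succ n ih => rw [hYs]; exact (ih.mul ih).union (he (n + 1))
  have hinv : ∀ n, Y n = (Y n)⁻¹ := by
    intro n
    induction n with
    | zero => rw [hY0, Set.union_inv, hFi, Set.inv_singleton, inv_one]
    | succ n ih => rw [hYs, Set.union_inv, hFi, mul_inv_rev, ← ih]
  have hsq : ∀ n, Y n * Y n ⊆ Y (n + 1) := fun n => by rw [hYs]; exact Set.subset_union_left
  have hmono : Monotone Y := monotone_nat_of_le_succ (fun n x hx => hsq n ⟨x, hx, 1, h1 n, by simp⟩)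
  have hFY : ∀ n, F n ⊆ Y n := by
    intro n
    cases n with
    | zero => rw [hY0]; exact Set.subset_union_left
    | succ n => rw [hYs]; exact Set.subset_union_right
  obtain ⟨n, hn⟩ := h.exists_eq Y hmono
    (Set.eq_univ_of_univ_subset fun x _ =>
      Set.mem_iUnion.2 ⟨max (e x) (e x⁻¹), hFY _ ⟨le_max_left _ _, le_max_right _ _⟩⟩) hinv hsq
  have := hfin n
  rw [hn] at this
  exact Set.infinite_univ this

theorem unif_of_dom (hB : Bergman G) (f : G → ℝ)
    (hf : ∀ g : G, ∀ δ > 0, {x : G | δ ≤ |f (g * x) - f x|}.Finite)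
    (hdom : ∃ h : ℕ → ℕ, ∀ g : G, ∀ᶠ n in atTop,
      {x : G | (1 / 2 : ℝ) ^ n ≤ |f (g * x) - f x|}.ncard ≤ h n) :
    ∀ δ > 0, ∃ N : ℕ, ∀ g : G, {x : G | δ ≤ |f (g * x) - f x|}.encard ≤ N := by
  classical
  have hp : ∀ n : ℕ, (0:ℝ) < (1/2)^n := fun n => by positivity
  obtain ⟨h, hh⟩ := hdom
  have hcard : ∀ g n, {x : G | (1/2:ℝ)^n ≤ |f (g * x) - f x|}.encard
      = (({x : G | (1/2:ℝ)^n ≤ |f (g * x) - f x|}.ncard : ℕ) : ℕ∞) := fun g n =>
    (Set.Finite.cast_ncard_eq (hf g ((1/2)^n) (hp n))).symm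
  -- monotone majorant
  let H : ℕ → ℕ := fun n => ∑ i ∈ Finset.range (n + 1), h i
  have hHm : Monotone H := fun n m hnm =>
    Finset.sum_le_sum_of_subset (Finset.range_mono (Nat.succ_le_succ hnm))
  have hhH : ∀ n, h n ≤ H n := fun n =>
    Finset.single_le_sum (f := h) (fun _ _ => Nat.zero_le _) (Finset.mem_range.2 (Nat.lt_succ_self n))
  let Y : ℕ → Set G := fun c => {g : G | ∀ n, Bd f ((1/2)^n) (2 ^ c * H (n + c)) g}
  have hYm : Monotone Y := fun c d hcd g hg n => (hg n).mono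
    (Nat.mul_le_mul (Nat.pow_le_pow_right (by norm_num) hcd) (hHm (by omega)))
  have hYi : ∀ c, Y c = (Y c)⁻¹ := fun c => by
    ext g
    simp only [Y, Set.mem_inv, Set.mem_setOf_eq]
    exact ⟨fun hg n => (hg n).inv, fun hg n => by simpa using (hg n).inv⟩
  have hYs : ∀ c, Y c * Y c ⊆ Y (c + 1) := by
    rintro c _ ⟨a, ha, b, hb, rfl⟩ n
    have h1 := (ha (n + 1)).mul (hb (n + 1))
    have e1 : (1/2:ℝ)^(n+1) + (1/2)^(n+1) = (1/2)^n := by rw [pow_succ]; ring
    have e2 : 2 ^ c * H (n + 1 + c) + 2 ^ c * H (n + 1 + c) = 2 ^ (c + 1) * H (n + (c + 1)) := by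
      rw [show n + 1 + c = n + (c + 1) by omega, pow_succ]; ring
    rw [e1, e2] at h1
    exact h1
  have hYc : (⋃ c, Y c) = Set.univ := by
    refine Set.eq_univ_of_univ_subset fun g _ => ?_
    obtain ⟨m, hm⟩ := Filter.eventually_atTop.1 (hh g)
    refine Set.mem_iUnion.2 ⟨m, fun n => ?_⟩
    have h2 : {x : G | (1/2:ℝ)^n ≤ |f (g * x) - f x|}.encard
        ≤ {x : G | (1/2:ℝ)^(n+m) ≤ |f (g * x) - f x|}.encard := by
      apply Set.encard_le_encard
      intro x hx
      simp only [Set.mem_setOf_eq] at hx ⊢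
      refine le_trans ?_ hx
      exact pow_le_pow_of_le_one (by norm_num) (by norm_num) (Nat.le_add_right _ _)
    unfold Bd
    refine h2.trans ?_
    rw [hcard]
    have h3 := hm (n + m) (Nat.le_add_left _ _)
    have h4 : h (n + m) ≤ 2 ^ m * H (n + m) :=
      (hhH _).trans (Nat.le_mul_of_pos_left _ (by positivity))
    exact_mod_cast h3.trans h4
  obtain ⟨c, hc⟩ := hB.exists_eq Y hYm hYc hYi hYs
  intro δ hδ
  obtain ⟨n, hn⟩ := exists_pow_lt_of_lt_one hδ (by norm_num : (1/2:ℝ) < 1)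
  refine ⟨2 ^ c * H (n + c), fun g => ?_⟩
  have hg : g ∈ Y c := by rw [hc]; trivial
  refine le_trans (Set.encard_le_encard ?_) (hg n)
  intro x hx
  exact le_trans hn.le hx

end H13.Berg
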