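import Mathlib
import Pool.Agent.H13.Berg.Main

namespace H13.Berg
open scoped Pointwise Topology
open Filter

variable {G : Type*} [Group G]

theorem exists_unbounded (f : G → ℝ) (hf01 : ∀ x, f x ∈ Set.Icc (0:ℝ) 1)
    (hso : ∀ g : G, ∀ δ > 0, {x : G | δ ≤ |f (g * x) - f x|}.Finite)
    (hdom : ∃ h : ℕ → ℕ, ∀ g : G, ∀ᶠ n in atTop,
      {x : G | (1 / 2 : ℝ) ^ n ≤ |f (g * x) - f x|}.ncard ≤ h n)
    {ε : ℝ} (hε : 0 < ε) (hun : ∀ N : ℕ, ∃ g : G, N ≤ {x : G | ε ≤ |f (g * x) - f x|}.ncard) :
    ∃ u : G → ℝ, (∀ g : G, ∀ δ > 0, {x : G | δ ≤ |u (g * x) - u x|}.Finite) ∧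
      (∀ m : ℕ, ∃ x, (m:ℝ) ≤ u x) := by
  classical
  obtain ⟨h, hh⟩ := hdom
  let w : ℕ → ℝ := fun m => (1/2)^m / (1 + h (2 * m))
  have hw : ∀ m, 0 < w m := fun m => by positivity
  have hw1 : ∀ m, w m ≤ 1 := fun m => by
    have h1 : (1/2:ℝ)^m ≤ 1 := pow_le_one₀ (by norm_num) (by norm_num)
    have h2 : (1:ℝ) ≤ 1 + h (2 * m) := by
      have : (0:ℝ) ≤ h (2 * m) := Nat.cast_nonneg _
      linarith
    calc w m ≤ 1 / (1 + h (2 * m)) := div_le_div_of_nonneg_right h1 (by positivity)
      _ ≤ 1 := by rw [div_le_one (by positivity)]; exact h2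
  have hwh : ∀ m, w m * h (2 * m) ≤ (1/2)^m := fun m => by
    simp only [w]
    rw [div_mul_eq_mul_div, div_le_iff₀ (by positivity)]
    have : (0:ℝ) < (1/2)^m := by positivity
    nlinarith
  let e : ℕ → ℕ := fun m => ⌈(m:ℝ) / (ε * w m)⌉₊
  have he1 : ∀ m : ℕ, (m:ℝ) ≤ w m * e m * ε := fun m => by
    have h1 : (m:ℝ) / (ε * w m) ≤ e m := Nat.le_ceil _
    rw [div_le_iff₀ (mul_pos hε (hw m))] at h1
    linarith
  have he2 : ∀ m : ℕ, w m * e m ≤ m / ε + 1 := fun m => by
    have h1 : (e m : ℝ) < (m:ℝ) / (ε * w m) + 1 :=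
      Nat.ceil_lt_add_one (div_nonneg (Nat.cast_nonneg _) (mul_pos hε (hw m)).le)
    have h2 : w m * e m ≤ w m * ((m:ℝ) / (ε * w m) + 1) :=
      mul_le_mul_of_nonneg_left h1.le (hw m).le
    have h3 : w m * ((m:ℝ) / (ε * w m) + 1) = m / ε + w m := by
      have := (hw m).ne'
      field_simp
    rw [h3] at h2
    linarith [hw1 m]
  choose gm hgm using fun m => hun (e m)
  have hE : ∀ m, ∃ E : Finset G, (∀ y ∈ E, ε ≤ |f (gm m * y) - f y|) ∧ E.card = e m := by
    intro m
    have h1 := hgm m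
    rw [Set.ncard_eq_toFinset_card _ (hso (gm m) ε hε)] at h1
    obtain ⟨E, hE1, hE2⟩ := Finset.exists_subset_card_eq h1
    refine ⟨E, fun y hy => ?_, hE2⟩
    have := hE1 hy
    simpa using this
  choose E hE1 hE2 using hE
  let T : ℕ → G → G → ℝ := fun m g x => w m * ∑ y ∈ E m, |f (g * (x * y)) - f (x * y)|
  have hT0 : ∀ m g x, 0 ≤ T m g x := fun m g x =>
    mul_nonneg (hw m).le (Finset.sum_nonneg fun _ _ => abs_nonneg _)
  let t : ℕ → ℝ := fun m => (1/2)^m + (m / ε + 1) * (1/4)^m
  have hts : Summable t := by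
    apply Summable.add
    · exact summable_geometric_of_lt_one (by norm_num) (by norm_num)
    · have h1 : Summable (fun m : ℕ => (m:ℝ) ^ 1 * (1/4:ℝ)^m) :=
        summable_pow_mul_geometric_of_norm_lt_one 1 (by rw [Real.norm_eq_abs, abs_of_pos] <;> norm_num)
      have h2 : Summable (fun m : ℕ => (1/4:ℝ)^m) :=
        summable_geometric_of_lt_one (by norm_num) (by norm_num)
      refine ((h1.mul_left (1/ε)).add h2).congr fun m => ?_
      simp only [pow_one]; ring
  have hd1 : ∀ a b : G, |f a - f b| ≤ 1 := fun a b => by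
    have h1 := hf01 a
    have h2 := hf01 b
    rw [abs_le]; constructor <;> linarith [h1.1, h1.2, h2.1, h2.2]
  have hbound : ∀ g, ∃ M, ∀ m ≥ M, ∀ x, T m g x ≤ t m := by
    intro g
    obtain ⟨M, hM⟩ := Filter.eventually_atTop.1 (hh g)
    refine ⟨M, fun m hm x => ?_⟩
    have h1 := hM (2 * m) (by omega)
    have hfin := hso g ((1/2)^(2*m)) (by positivity)
    have h2 : ∑ y ∈ E m, |f (g * (x * y)) - f (x * y)| ≤ h (2 * m) + e m * (1/4)^m := by
      have h3 : ∀ y ∈ E m, |f (g * (x * y)) - f (x * y)| ≤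
          (if (1/2:ℝ)^(2*m) ≤ |f (g * (x * y)) - f (x * y)| then 1 else 0) + (1/4)^m := by
        intro y _
        have e4 : (1/2:ℝ)^(2*m) = (1/4)^m := by rw [pow_mul]; norm_num
        split_ifs with hc
        · have := hd1 (g * (x * y)) (x * y)
          have h5 : (0:ℝ) < (1/4)^m := by positivity
          linarith
        · rw [e4] at hc
          push Not at hc
          linarith
      refine (Finset.sum_le_sum h3).trans ?_
      rw [Finset.sum_add_distrib, Finset.sum_const, hE2, nsmul_eq_mul]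
      refine add_le_add ?_ le_rfl
      rw [← Finset.sum_filter, Finset.sum_const, nsmul_eq_mul, mul_one]
      have h6 : ((E m).filter (fun y => (1/2:ℝ)^(2*m) ≤ |f (g * (x * y)) - f (x * y)|)).card
          ≤ {z : G | (1 / 2 : ℝ) ^ (2*m) ≤ |f (g * z) - f z|}.ncard := by
        rw [← Set.ncard_coe_finset, ← Set.ncard_image_of_injective _ (mul_right_injective x)]
        apply Set.ncard_le_ncard _ hfin
        rintro _ ⟨y, hy, rfl⟩
        simp only [Finset.coe_filter, Set.mem_setOf_eq] at hy ⊢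
        exact hy.2
      exact_mod_cast h6.trans h1
    calc T m g x ≤ w m * (h (2 * m) + e m * (1/4)^m) := mul_le_mul_of_nonneg_left h2 (hw m).le
      _ = w m * h (2 * m) + (w m * e m) * (1/4)^m := by ring
      _ ≤ (1/2)^m + (m / ε + 1) * (1/4)^m :=
        add_le_add (hwh m) (mul_le_mul_of_nonneg_right (he2 m) (by positivity))
  have hsum : ∀ g x, Summable (fun m => T m g x) := by
    intro g x
    obtain ⟨M, hM⟩ := hbound g
    rw [← summable_nat_add_iff M]
    exact Summable.of_nonneg_of_le (fun m => hT0 _ _ _) (fun m => hM _ (Nat.le_add_left _ _) x)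
      ((summable_nat_add_iff M).2 hts)
  have hTfin : ∀ m g, ∀ η > 0, {x : G | η ≤ T m g x}.Finite := by
    intro m g η hη
    set η' : ℝ := η / (w m * (e m + 1)) with hη'
    have hη'0 : 0 < η' := by
      have := hw m
      positivity
    have hsub : {x : G | η ≤ T m g x} ⊆ ⋃ y ∈ E m, (fun x => x * y) ⁻¹' {z | η' ≤ |f (g * z) - f z|} := by
      intro x hx
      by_contra hcon
      simp only [Set.mem_iUnion, Set.mem_preimage, Set.mem_setOf_eq, not_exists, not_le] at hcon
      simp only [Set.mem_setOf_eq] at hx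
      have h1 : ∑ y ∈ E m, |f (g * (x * y)) - f (x * y)| ≤ (e m : ℝ) * η' := by
        calc _ ≤ ∑ y ∈ E m, η' := Finset.sum_le_sum fun y hy => (hcon y hy).le
          _ = (e m : ℝ) * η' := by rw [Finset.sum_const, hE2, nsmul_eq_mul]
      have h2 : T m g x ≤ w m * ((e m : ℝ) * η') := mul_le_mul_of_nonneg_left h1 (hw m).le
      have h3 : w m * ((e m + 1 : ℝ) * η') = η := by
        rw [hη']
        have := (hw m).ne'
        have h4 : ((e m : ℝ) + 1) ≠ 0 := by positivity
        field_simp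
      have h5 : 0 < w m * η' := mul_pos (hw m) hη'0
      nlinarith
    refine Set.Finite.subset ?_ hsub
    refine Set.Finite.biUnion (Finset.finite_toSet _) fun y _ => ?_
    exact (hso g η' hη'0).preimage ((mul_left_injective y).injOn)
  let S : ℕ → G → ℝ := fun m x => w m * ∑ y ∈ E m, |f (x * y) - f y|
  let u : G → ℝ := fun x => ∑' m, S m x
  have hterm : ∀ x m, S m x = T m x 1 := by
    intro x m; simp only [S, T, one_mul]
  have husum : ∀ x, Summable (fun m => S m x) := by
    intro x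
    exact (hsum x 1).congr (fun m => (hterm x m).symm)
  have hdiff : ∀ g x, |u (g * x) - u x| ≤ ∑' m, T m g x := by
    intro g x
    have h1 : u (g * x) - u x = ∑' m, (S m (g * x) - S m x) :=
      ((husum _).tsum_sub (husum _)).symm
    have h2 : ∀ m, |S m (g * x) - S m x| ≤ T m g x := by
      intro m
      simp only [S]
      rw [← mul_sub, ← Finset.sum_sub_distrib, abs_mul, abs_of_pos (hw m)]
      refine mul_le_mul_of_nonneg_left ?_ (hw m).le
      refine (Finset.abs_sum_le_sum_abs _ _).trans (Finset.sum_le_sum fun y _ => ?_)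
      refine (abs_abs_sub_abs_le _ _).trans (le_of_eq ?_)
      rw [mul_assoc]; congr 1; ring
    have h3 : Summable (fun m => |S m (g * x) - S m x|) :=
      Summable.of_nonneg_of_le (fun _ => abs_nonneg _) h2 (hsum g x)
    rw [h1]
    calc |∑' m, (S m (g * x) - S m x)| ≤ ∑' m, |S m (g * x) - S m x| := by
          have := norm_tsum_le_tsum_norm (f := fun m => (S m (g * x) - S m x))
            (by simpa only [Real.norm_eq_abs] using h3)
          simpa only [Real.norm_eq_abs] using this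
      _ ≤ ∑' m, T m g x := h3.tsum_le_tsum h2 (hsum g x)
  refine ⟨u, fun g δ hδ => ?_, fun m => ⟨gm m, ?_⟩⟩
  · obtain ⟨M0, hM0⟩ := hbound g
    have htail := tendsto_sum_nat_add t
    obtain ⟨M1, hM1⟩ := Filter.eventually_atTop.1 (htail.eventually (gt_mem_nhds (by positivity : (0:ℝ) < δ / 2)))
    set M := max (max M0 M1) 1 with hMdef
    have hM1' : ∑' k, t (k + M) < δ / 2 := hM1 M (le_trans (le_max_right _ _) (le_max_left _ _))
    have hMpos : (0:ℝ) < M := by
      have : 1 ≤ M := le_max_right _ _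
      exact_mod_cast this
    have hsub : {x : G | δ ≤ |u (g * x) - u x|} ⊆ ⋃ m ∈ Finset.range M, {x : G | δ / (2 * M) ≤ T m g x} := by
      intro x hx
      by_contra hcon
      simp only [Set.mem_iUnion, Set.mem_setOf_eq, not_exists, not_le] at hcon
      simp only [Set.mem_setOf_eq] at hx
      have h1 := hdiff g x
      have h2 := (hsum g x).sum_add_tsum_nat_add M
      have h3 : ∑ i ∈ Finset.range M, T i g x ≤ M * (δ / (2 * M)) := by
        calc _ ≤ ∑ i ∈ Finset.range M, δ / (2 * M) := Finset.sum_le_sum fun i hi => (hcon i hi).le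
          _ = M * (δ / (2 * M)) := by rw [Finset.sum_const, Finset.card_range, nsmul_eq_mul]
      have h4 : (M:ℝ) * (δ / (2 * M)) = δ / 2 := by field_simp
      have h5 : ∑' k, T (k + M) g x ≤ ∑' k, t (k + M) := by
        refine Summable.tsum_le_tsum (fun k => ?_) ((summable_nat_add_iff M).2 (hsum g x))
          ((summable_nat_add_iff M).2 hts)
        apply hM0
        have : M0 ≤ M := le_trans (le_max_left _ _) (le_max_left _ _)
        omega
      linarith
    refine Set.Finite.subset ?_ hsub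
    refine Set.Finite.biUnion (Finset.finite_toSet _) fun m _ => hTfin m g _ (by positivity)
  · have h1 : S m (gm m) ≤ u (gm m) :=
      (husum (gm m)).le_tsum m (fun j _ => by rw [hterm]; exact hT0 _ _ _)
    refine le_trans ?_ h1
    have h2 : (e m : ℝ) * ε ≤ ∑ y ∈ E m, |f (gm m * y) - f y| := by
      calc (e m : ℝ) * ε = ∑ y ∈ E m, ε := by rw [Finset.sum_const, hE2, nsmul_eq_mul]
        _ ≤ _ := Finset.sum_le_sum fun y hy => hE1 m y hy
    have h3 := mul_le_mul_of_nonneg_left h2 (hw m).le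
    linarith [he1 m]

end H13.Berg
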